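import Pool.Agent.LRG.StmtsB

/-!
# Squad LRG, row INT (helper80)
-/

set_option autoImplicit false

open Polynomial

namespace Pool.Agent.LRG.H80

/-- Row INT. -/
theorem int : IntStmt := by
  intro A B _ _ ψ J n₀ b hb F
  letI : Algebra A (B ⧸ J) := ((Ideal.Quotient.mk J).comp ψ).toAlgebra
  have hmap : ∀ a : A, algebraMap A (B ⧸ J) a = Ideal.Quotient.mk J (ψ a) := fun a => rfl
  classical
  have hfin : Module.Finite A (B ⧸ J) := by
    refine ⟨⟨Finset.univ.image (fun i => Ideal.Quotient.mk J (b i)), ?_⟩⟩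
    rw [eq_top_iff]
    rintro x -
    obtain ⟨f, rfl⟩ := Ideal.Quotient.mk_surjective x
    obtain ⟨c, hc⟩ := hb f
    have h1 : Ideal.Quotient.mk J f = ∑ i, c i • Ideal.Quotient.mk J (b i) := by
      have h2 := Ideal.Quotient.eq.2 hc
      rw [h2, map_sum]
      refine Finset.sum_congr rfl fun i _ => ?_
      rw [map_mul, Algebra.smul_def, hmap]
    rw [h1]
    refine Submodule.sum_mem _ fun i _ => Submodule.smul_mem _ _ (Submodule.subset_span ?_)
    simp
  have hint : IsIntegral A (Ideal.Quotient.mk J F) := IsIntegral.of_finite A _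
  obtain ⟨χ, hχ, h⟩ := hint
  refine ⟨χ, hχ, ?_⟩
  rw [← Ideal.Quotient.eq_zero_iff_mem, Polynomial.hom_eval₂]
  exact h

end Pool.Agent.LRG.H80
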