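import Pool.Agent.LRG.StmtsE
import Pool.Agent.LRG.StmtsZ
import Pool.Agent.Helper67_LRG.FCT
import Pool.Agent.Helper21_LRG.SPC
import Pool.Agent.Helper99_LRG.FIV
import Pool.Agent.Helper64_LRG.SUB
import Pool.Agent.Helper62_LRG.ROO
import Pool.Agent.Helper21_LRG.EMB
import Pool.Agent.Helper25_LRG.PLA
import Pool.Agent.Helper10_LRG.UNT
import Pool.Agent.Helper43_LRG.LGB
import Pool.Agent.Helper14_LRG.REB
import Pool.Agent.Helper47_LRG.KRO
import Pool.Agent.Helper40_LRG.DSR
import Pool.Agent.Helper76_LRG.DSJ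
import Pool.Agent.Helper42_LRG.TRE
import Pool.Agent.Helper41_LRG.NIZ
import Pool.Agent.Helper47_LRG.BLC
import Pool.Agent.Helper41_LRG.TRA
import Pool.Agent.Helper38_LRG.BLR
import Pool.Agent.Helper49_LRG.BLI
import Pool.Agent.Helper49_LRG.TWO
import Pool.Agent.Helper40_LRG.NOI
import Pool.Agent.Helper44_LRG.BGT
import Pool.Agent.Helper40_LRG.FFE
import Pool.Agent.Helper95_LRG.COU
import Pool.Agent.Helper49_LRG.LWF
import Pool.Agent.Helper62_LRG.LOW
import Pool.Agent.Helper77_LRG.FIN

/-!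
# Squad LRG, block E: the lower bound for the number of fields (helper80)
-/

set_option autoImplicit false

namespace Pool.Agent.LRG.H80

open Pool.Agent.LRG.E

/-- The lower bound, from the irreducibility row and the finiteness. -/
theorem lowAux (ire : IreStmt)
    (fin : ∀ r₁ r₂ : ℕ, 3 ≤ r₁ + r₂ → ∀ T : ℝ, (PrimReg r₁ r₂ T).Finite) : LowConcl := by
  have ffe : FfeConcl := H40.ffe H67.fct H21.spc ire H62.roo H21.emb
  have dsj : DsjConcl := H76.dsj H67.fct H21.spc H10.unt H47.kro H40.dsr H43.lgb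
  have cou : CouConcl := H95.cou ffe dsj
  have reb : RebConcl := H14.reb H25.pla H10.unt H43.lgb H67.fct
  have two : TwoConcl := H49.two H38.blr H49.bli H41.tra H47.blc H42.tre H21.spc H41.niz
    H64.sub H99.fiv
  have noi : NoiConcl := H40.noi H21.spc H41.niz
  exact H62.low (H49.lwf cou reb two noi H25.pla H44.bgt) fin

/-- The lower bound, from the results of the other blocks. -/
theorem lowAll (ire : IreStmt) (hOne : OneConcl) (hReg : RegConcl) : LowConcl :=
  lowAux ire (fun r₁ r₂ h3 T => H77.fin hOne hReg r₁ r₂ h3 T)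

end Pool.Agent.LRG.H80
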